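import Pool.Agent.Lib_helper87.Final
set_option autoImplicit false

/-!
The upper minus domination number of a tree can be computed in linear time.

The definitions of the word RAM (`Instr`, `Config`, `Config.write`, `step`, `run`), of its input
(`inputCells`, `start`) and of minimal minus dominating functions (`nbSum`, `IsMinusDom`,
`IsMinimalMinusDom`) are in `Pool/Agent/Lib_helper87/Model.lean`.
-/

namespace Pool.Agent.Results.MP_d85e1b_lc.LinearTime

open Pool.Agent.Lib_helper87.UM

/-- There are a program `P` for the word RAM and a constant `C` such that for every tree `T` on the
vertices `0, ..., n - 1`, given by adjacency lists in any order, the program halts after at most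
`C * n` steps, all the numbers it handles having absolute value at most `C * n`, and register 0
then contains the upper minus domination number of `T`, that is, the largest weight of a minimal
minus dominating function. -/
theorem result : ∃ (P : List Instr) (C : ℕ), ∀ (n : ℕ) (T : SimpleGraph (Fin n)), T.IsTree →
    ∀ adj : Fin n → List (Fin n), (∀ v, (adj v).Nodup) → (∀ v w, w ∈ adj v ↔ T.Adj v w) →
    ∃ (t : ℕ) (c : Config), t ≤ C * n ∧ run (C * n) P t (start adj) = some c ∧ c.pc = P.length ∧
      IsGreatest {w : ℤ | ∃ f : Fin n → ℤ, IsMinimalMinusDom T f ∧ w = ∑ v, f v} (c.reg 0) :=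
  linear_time

end Pool.Agent.Results.MP_d85e1b_lc.LinearTime
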